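import Pool.Agent.H84.DPC.Split
import Pool.Agent.H45.DPA.Stmt

/-!
# The double plateau, part (alpha): the class half, statements

`Zod`: the numbers `rot`, `th`, `act`, `rc` near the window `W g` and the place `P - g`. `DLv`: the
integer levels. One rational window `u₀` below all windows of the grid gives the frame. `R = g - W g`
and `v₀` may vanish, and `R = v₀` is allowed. `DFr`: the frames. The Props `DFrStmt` (frames, with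
the row of the position), `DActStmt` (activity), `DStrStmt` (no strip) are the fields of `DIa`.
-/

set_option autoImplicit false

namespace Pool.S6C

open Finset Real
open Pool.Agent.H49.Ent Pool.Agent.H32.Dense Pool.STK Pool.KA Pool.KSAT Pool.K2S Pool.PB Pool.KS6
  Pool.Sel51

/-- **The zone.** `wr = W g` is the window, `p₀ = P - g` the place of the velocity, `L` the
half-width, `e` the error, `G` the room, `pe` and `pe'` levels of the straightness. -/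
structure Zod (σ : ℝ → Row) (act rc : ℚ → ℝ) (v₁ t : ℚ) (e₁ P g wr v₀ a₀ α pe L e G : ℝ) :
    Prop where
  α0 : 0 < α
  e0 : 0 < e
  eL : 100 * e ≤ L
  LG : 10 * L ≤ G
  v0 : 0 ≤ v₀
  vR : v₀ ≤ g - wr
  /-- the numbers are almost constant near the window -/
  aff : ∀ q : ℚ, |(q : ℝ) - wr| ≤ L → |(σ 1).rot q - v₀| ≤ e ∧
    |(σ 1).th q - g - ((q : ℝ) - wr)| ≤ e ∧ rc q ≤ g - wr + e
  act : ∀ q : ℚ, |(q : ℝ) - (P - g)| ≤ L → |act q - a₀ - α * ((q : ℝ) - (P - g))| ≤ e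
  /-- room -/
  g0 : 0 ≤ pe
  g1 : (P - g) + v₀ + G < pe
  g2 : pe + G < (σ 1).pi
  g3 : P - wr + G < (σ 1).sN v₁ t
  g4 : P - wr + G < t - v₁ + e₁
  g5 : P - g + G < e₁
  g6 : wr + G < v₁
  g7 : P + G < 1
  g8 : G < P - g
  g9 : G < wr

/-- **The integer levels.** The windows are `w₀ + j X`, `j ≤ N`, the places of the velocity
`q + k X`, `k ≤ M + 1`; `V` digits of the direction and `V + H` digits of the normal form are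
known. -/
structure DLv (J N M : ℕ) (P g wr v₀ x L e : ℝ) (u₀ : ℚ) (w₀ q V H X : ℕ) : Prop where
  xX : x * J ≤ X
  Xx : (X : ℝ) ≤ 2 * x * J
  ul : wr - L / 4 ≤ u₀
  uw : (u₀ : ℝ) * J + e * J ≤ w₀
  wu : ((w₀ + (N + 2) * X : ℕ) : ℝ) ≤ (wr + L / 4) * J
  ql : (P - g - L / 4) * J ≤ q
  qu : ((q + (M + 2) * X : ℕ) : ℝ) ≤ (P - g + L / 4) * J
  vu : (V : ℝ) ≤ max 0 ((v₀ - 10 * e) * J)
  vl : (v₀ - 11 * e) * J ≤ V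
  hu : (H : ℝ) ≤ max 0 ((g - wr - v₀ - 10 * e) * J)
  hl : (g - wr - v₀ - 11 * e) * J ≤ H

/-- **The frames.** -/
structure DFr {J : ℕ} (F : Fam 3 J) (A : F.Ω → Prop) (σ : Fin 3 → Fin 3) (u V H Pu PN : ℕ)
    (a s t : F.Ω → ℝ) (al nu kk bb : (Fin 3 → ℤ) × (ℕ × F.ζ) → ℝ) : Prop where
  bij : Function.Bijective σ
  /-- the frame is a function of the line and of the window `u` -/
  fn : ∀ ω ω', slam F u ω = slam F u ω' → a ω = a ω' ∧ s ω = s ω' ∧ t ω = t ω'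
  /-- the frame is a function of the exact point -/
  fp : ∀ ω ω', A ω → A ω' → Fam.pt F ω = Fam.pt F ω' → a ω = a ω' ∧ s ω = s ω' ∧ t ω = t ω'
  bd : ∀ ω, A ω → |a ω| ≤ 4 ∧ |s ω| ≤ 4 ∧ |t ω| ≤ 8
  /-- the fans at exact points -/
  on1 : ∀ ω, A ω → |F.d ω (σ 1) - al (Fam.pt F ω) * F.d ω (σ 0) - nu (Fam.pt F ω)| ≤ 8 / 2 ^ Pu
  on2 : ∀ ω, A ω → |F.d ω (σ 2) - s ω * F.d ω (σ 1) - t ω * F.d ω (σ 0) - bb (Fam.pt F ω) -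
    kk (Fam.pt F ω) * F.d ω (σ 0)| ≤ 8 / 2 ^ PN
  an1 : ∀ ω, A ω → |al (Fam.pt F ω) - a ω| ≤ 8 / 2 ^ V
  an2 : ∀ ω, A ω → |kk (Fam.pt F ω)| ≤ 8 / 2 ^ (V + H)
  be : ∀ ω, A ω → |al (Fam.pt F ω)| ≤ 3 / 2 ∧
    |s ω * al (Fam.pt F ω) + (kk (Fam.pt F ω) + t ω)| ≤ 3 / 2
  on3 : ∃ nN : (Fin 3 → ℤ) × (ℕ × F.ζ) → ℝ, ∀ ω, A ω →
    |F.d ω (σ 2) - (s ω * al (Fam.pt F ω) + (kk (Fam.pt F ω) + t ω)) * F.d ω (σ 0) -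
      nN (Fam.pt F ω)| ≤ 8 / 2 ^ Pu

/-- **(T1)** The zone exists. -/
def ZodStmt : Prop :=
  ∀ (S : PCl 3) (a R h₁ : ℝ) (i₀ : Fin 3) (c s₂ : ℝ) (r : ℝ → ℝ) (D : Set ℝ) (σ : ℝ → Row),
    Cs S a R h₁ i₀ c s₂ r D σ → ∀ (act : ℚ → ℝ) (K : Set ℝ) (W : ℝ → ℝ) (v₁ t : ℚ)
    (e₁ Q₀ P g v₀ a₀ α : ℝ), Loc S i₀ c s₂ r D σ act K W v₁ t e₁ Q₀ P g v₀ 0 0 a₀ α →
    ∀ (rc : ℚ → ℝ) (pe : ℝ), 0 ≤ pe → (P - g) + v₀ < pe → pe < (σ 1).pi →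
    Slp rc (W g) (g - W g) 0 → ∀ e' L₀ : ℝ, 0 < e' → 0 < L₀ →
    ∃ L e G : ℝ, 0 < L ∧ L ≤ L₀ ∧ e ≤ e' * L ∧
      Zod σ act rc v₁ t e₁ P g (W g) v₀ a₀ α pe L e G

/-- **(T1)** The integer levels exist. -/
def DLvStmt : Prop :=
  ∀ (σ : ℝ → Row) (act rc : ℚ → ℝ) (v₁ t : ℚ) (e₁ P g wr v₀ a₀ α pe L e G : ℝ), 0 < L →
    Zod σ act rc v₁ t e₁ P g wr v₀ a₀ α pe L e G → ∀ (N M : ℕ) (x : ℝ) (u₀ : ℚ), 0 < x →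
    8 * ((N : ℝ) + M + 10) * x ≤ L → wr - L / 4 ≤ u₀ → u₀ + L / 16 ≤ wr → ∃ J₁ : ℕ, ∀ J ≥ J₁,
    ∃ w₀ q V H X : ℕ, DLv J N M P g wr v₀ x L e u₀ w₀ q V H X

/-- **(T2 + T3)** The frames exist, and the block of the position is not full. -/
def DFrStmt : Prop :=
  ∀ (S : PCl 3) (a R h₁ : ℝ) (i₀ : Fin 3) (c s₂ : ℝ) (r : ℝ → ℝ) (D : Set ℝ) (σ : ℝ → Row),
    Cs S a R h₁ i₀ c s₂ r D σ → ∀ (act : ℚ → ℝ) (K : Set ℝ) (W : ℝ → ℝ) (v₁ t : ℚ)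
    (e₁ Q₀ P g v₀ a₀ α : ℝ), Loc S i₀ c s₂ r D σ act K W v₁ t e₁ Q₀ P g v₀ 0 0 a₀ α →
    ∀ (N M : ℕ) (ϖ ε : ℝ), 0 < ϖ → 0 < ε → ∃ e' L₀ : ℝ, 0 < e' ∧ 0 < L₀ ∧
    ∀ (rc : ℚ → ℝ) (pe x L e G : ℝ), L ≤ L₀ → e ≤ e' * L → ε * L ≤ x →
    Zod σ act rc v₁ t e₁ P g (W g) v₀ a₀ α pe L e G → ∀ u₀ : ℚ, W g - L / 4 ≤ u₀ →
    (u₀ : ℝ) ≤ W g → Clp S (fun J F A => ∀ w₀ q V H X : ℕ,
      DLv J N M P g (W g) v₀ x L e u₀ w₀ q V H X →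
      ∃ (sg : Fin 3 → Fin 3) (a s t : F.Ω → ℝ) (al nu kk bb : (Fin 3 → ℤ) × (ℕ × F.ζ) → ℝ),
        sg 0 = i₀ ∧ DFr F A sg ⌊(u₀ : ℝ) * J⌋₊ V H ⌊(pe + G / 2) * J⌋₊
          ⌊(P - W g + G / 2) * J⌋₊ a s t al nu kk bb ∧
        ∀ j < N, ∀ k < M, ∀ E : F.Ω → Prop, Sub E A → ϖ * Pe F.p A ≤ Pe F.p E →
          CH (Pool.Agent.H49.Ent.cond F.p E True)
            (F.sbx sg (w₀ + j * X + q + k * X + X) (w₀ + j * X + q + V + k * X + X)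
              (w₀ + j * X + q + V + H + k * X + X) a s t)
            (fun ω => (F.sbx sg (w₀ + j * X + q + k * X) (w₀ + j * X + q + V + k * X)
              (w₀ + j * X + q + V + H + k * X) a s t ω, F.W ω)) ≤
            (3 - c / 2) * X * Real.log 2)

/-- **(T4)** The velocity is active given the exact point. -/
def DActStmt : Prop :=
  ∀ (S : PCl 3) (a R h₁ : ℝ) (i₀ : Fin 3) (c s₂ : ℝ) (r : ℝ → ℝ) (D : Set ℝ) (σ : ℝ → Row),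
    Cs S a R h₁ i₀ c s₂ r D σ → ∀ (act : ℚ → ℝ) (K : Set ℝ) (W : ℝ → ℝ) (v₁ t : ℚ)
    (e₁ Q₀ P g v₀ a₀ α : ℝ), Loc S i₀ c s₂ r D σ act K W v₁ t e₁ Q₀ P g v₀ 0 0 a₀ α →
    ∀ (N M : ℕ) (ϖ κ ε : ℝ), 0 < ϖ → 0 < κ → 0 < ε → ∃ e' L₀ : ℝ, 0 < e' ∧ 0 < L₀ ∧
    ∀ (rc : ℚ → ℝ) (pe x L e G : ℝ), L ≤ L₀ → e ≤ e' * L → ε * L ≤ x →
    Zod σ act rc v₁ t e₁ P g (W g) v₀ a₀ α pe L e G → ∀ u₀ : ℚ,
    Clp S (fun J F A => ∀ w₀ q V H X : ℕ, DLv J N M P g (W g) v₀ x L e u₀ w₀ q V H X →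
      ∀ k < M, ∀ n X' : ℕ, κ * X ≤ X' → n + X' ≤ X → ∀ E : F.Ω → Prop, Sub E A →
      ϖ * Pe F.p A ≤ Pe F.p E → α / 2 * X' * Real.log 2 ≤
        CH (Pool.Agent.H49.Ent.cond F.p E True)
          (fun ω => F.D (q + k * X + n + X') ω i₀)
          (fun ω => (F.D (q + k * X + n) ω i₀, Fam.pt F ω)))

/-- **(T5)** The own slopes of a typical line are not in a strip. -/
def DStrStmt : Prop :=
  ∀ (S : PCl 3) (a R h₁ : ℝ) (i₀ : Fin 3) (c s₂ : ℝ) (r : ℝ → ℝ) (D : Set ℝ) (σ : ℝ → Row),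
    Cs S a R h₁ i₀ c s₂ r D σ → ∀ (act : ℚ → ℝ) (K : Set ℝ) (W : ℝ → ℝ) (v₁ t : ℚ)
    (e₁ Q₀ P g v₀ a₀ α : ℝ), Loc S i₀ c s₂ r D σ act K W v₁ t e₁ Q₀ P g v₀ 0 0 a₀ α →
    ∀ (N M : ℕ) (x₀ ε : ℝ), 0 < x₀ → 0 < ε → ∃ e' L₀ : ℝ, 0 < e' ∧ 0 < L₀ ∧
    ∀ (rc : ℚ → ℝ) (pe x L e G : ℝ), RcN S i₀ pe rc → L ≤ L₀ → e ≤ e' * L → ε * L ≤ x →
    Zod σ act rc v₁ t e₁ P g (W g) v₀ a₀ α pe L e G → ∀ u₀ : ℚ, W g - L / 4 ≤ u₀ →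
    (u₀ : ℝ) ≤ W g → Clp S (fun J F A => ∀ w₀ q V H X : ℕ,
      DLv J N M P g (W g) v₀ x L e u₀ w₀ q V H X →
      ∀ (sg : Fin 3 → Fin 3) (a s t : F.Ω → ℝ) (al nu kk bb : (Fin 3 → ℤ) × (ℕ × F.ζ) → ℝ),
        sg 0 = i₀ → DFr F A sg ⌊(u₀ : ℝ) * J⌋₊ V H ⌊(pe + G / 2) * J⌋₊
          ⌊(P - W g + G / 2) * J⌋₊ a s t al nu kk bb →
        ∀ j < N, Pool.PLV.NStr (Pool.Agent.H49.Ent.cond F.p A True) (slam F (w₀ + j * X))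
          (Pool.DPA.slp F V H a al kk) ((2 : ℝ) ^ (-(x₀ * X))) (1 / 4))

end Pool.S6C
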