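import Pool.Agent.H41.S6H.SelH
import Pool.Agent.H41.S6H.Rc2
import Pool.Agent.H75.S6C.Ths

/-!
# The plateaus of `R - varpi`: a point at which the numbers `rc` have a slope

The set form of the plateau cases follows from two statements at a point `g` at which the numbers
`rc` of closed planes have a value `Rc` and a slope: (alpha) `Rc = g - W g`, and then the slopes are
equal too; (beta) `Rc > g - W g`.
-/

set_option autoImplicit false

namespace Pool.S6C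

open Finset Real
open Pool.Agent.H49.Ent Pool.Agent.H32.Dense Pool.STK Pool.KA Pool.KSAT Pool.K2S Pool.PB Pool.KS6
  Pool.Sel51

/-- The numbers `rc` are continuous at `x`, with the value `R`. -/
def RcC (rc : ℚ → ℝ) (x R : ℝ) : Prop :=
  ∀ e : ℝ, 0 < e → ∃ d : ℝ, 0 < d ∧ ∀ w : ℚ, |(w : ℝ) - x| < d → |rc w - R| ≤ e

/-- A number with a slope at `x` is continuous at `x`. -/
theorem rcC_of_slp {f : ℚ → ℝ} {x R s : ℝ} (h : Slp f x R s) : RcC f x R := by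
  intro e he
  obtain ⟨δ, hδ, k⟩ := h 1 one_pos
  refine ⟨min δ (e / (|s| + 1)), lt_min hδ (by positivity), fun w hw => ?_⟩
  have h1 := k w (hw.trans_le (min_le_left _ _))
  have h2 : |(w : ℝ) - x| * (|s| + 1) ≤ e := by
    have h3 := hw.le.trans (min_le_right _ _)
    rwa [le_div_iff₀ (by positivity)] at h3
  have h4 : |s * ((w : ℝ) - x)| = |s| * |(w : ℝ) - x| := abs_mul _ _
  have h5 : f w - R = (f w - R - s * ((w : ℝ) - x)) + s * ((w : ℝ) - x) := by ring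
  rw [h5]
  refine (abs_add_le _ _).trans ?_
  linarith

/-- **(alpha)** The closed planes near the window `W g` are the visible planks: the numbers `rc`
have the value `g - W g` and the slope `ρ` there, as `th w - w`. -/
def RcAlpha (Γ : ℝ → ℝ → Prop) : Prop :=
  ∀ (S : PCl 3) (a R h₁ : ℝ) (i₀ : Fin 3) (c s₂ : ℝ) (r : ℝ → ℝ) (D : Set ℝ) (σ : ℝ → Row),
    Cs S a R h₁ i₀ c s₂ r D σ → ∀ (act : ℚ → ℝ) (K : Set ℝ) (W : ℝ → ℝ) (v₁ t : ℚ)
    (e₁ Q₀ P g v₀ v ρ a₀ α : ℝ), Loc S i₀ c s₂ r D σ act K W v₁ t e₁ Q₀ P g v₀ v ρ a₀ α →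
    Γ v ρ → ∀ (pe : ℝ) (rc : ℚ → ℝ), 0 ≤ pe → (P - g) + v₀ < pe → pe < (σ 1).pi →
    RcN S i₀ pe rc → Slp rc (W g) (g - W g) ρ → False

/-- **(beta)** The closed planes at the window `W g` are thinner than the visible planks. -/
def RcBeta (Γ : ℝ → ℝ → Prop) : Prop :=
  ∀ (S : PCl 3) (a R h₁ : ℝ) (i₀ : Fin 3) (c s₂ : ℝ) (r : ℝ → ℝ) (D : Set ℝ) (σ : ℝ → Row),
    Cs S a R h₁ i₀ c s₂ r D σ → ∀ (act : ℚ → ℝ) (K : Set ℝ) (W : ℝ → ℝ) (v₁ t : ℚ)
    (e₁ Q₀ P g v₀ v ρ a₀ α : ℝ), Loc S i₀ c s₂ r D σ act K W v₁ t e₁ Q₀ P g v₀ v ρ a₀ α →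
    Γ v ρ → ∀ (pe : ℝ) (rc : ℚ → ℝ) (Rc s : ℝ), 0 ≤ pe → (P - g) + v₀ < pe →
    pe < (σ 1).pi → RcN S i₀ pe rc → 0 ≤ s → Slp rc (W g) Rc s → g - W g < Rc → False

/-- The local data in a subclass. -/
theorem Loc.le {S S' : PCl 3} {i₀ : Fin 3} {c s₂ : ℝ} {r : ℝ → ℝ} {D : Set ℝ} {σ : ℝ → Row}
    {act : ℚ → ℝ} {K : Set ℝ} {W : ℝ → ℝ} {v₁ t : ℚ} {e₁ Q₀ P g v₀ v ρ a₀ α : ℝ}
    (h : Loc S i₀ c s₂ r D σ act K W v₁ t e₁ Q₀ P g v₀ v ρ a₀ α) (hS : S'.Le S) :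
    Loc S' i₀ c s₂ r D σ act K W v₁ t e₁ Q₀ P g v₀ v ρ a₀ α :=
  { h with actN := h.actN.le hS }

/-- **Points with slopes.** A monotone number has a slope at `W g`, for the points `g` of a set of
positive measure. -/
theorem SD.slp_pos {S : PCl 3} {i₀ : Fin 3} {c s₂ : ℝ} {r : ℝ → ℝ} {D : Set ℝ} {σ : ℝ → Row}
    {act : ℚ → ℝ} {K : Set ℝ} {W : ℝ → ℝ} {v₁ t : ℚ} {e₁ κ : ℝ} {K' : Set ℝ} {Q₀ C : ℝ} {w₁ : ℚ}
    {V0 V Rh : ℝ → ℝ} {Γ : ℝ → ℝ → Prop}
    (h : SD S i₀ c s₂ r D σ act K W v₁ t e₁ κ K' Q₀ C w₁ V0 V Rh Γ) {f : ℚ → ℝ}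
    (hW1 : ∀ g ∈ K', W g < 1) (hf : ∀ q q' : ℚ, 0 ≤ q → q ≤ q' → q' ≤ 1 → f q ≤ f q') :
    MeasureTheory.volume {g | g ∈ K' ∧ ∃ R s, 0 ≤ s ∧ Slp f (W g) R s} ≠ 0 := by
  obtain ⟨N, hN, hN'⟩ := slp_ae hf
  have hC := h.C0
  intro hzero
  refine h.pos (MeasureTheory.measure_mono_null ?_ (MeasureTheory.measure_union_null hzero
    (null_pre (K := K') (W := W) (N := N) hC (fun P hP => ⟨1 / C, by positivity,
      fun g hg h1 h2 => h.lemc P hP g (h.sub hg) h1 h2⟩) hN)))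
  intro g hg
  by_cases hc : W g ∈ N
  · exact Or.inr ⟨hg, hc⟩
  · exact Or.inl ⟨hg, hN' (W g) (h.pr g (h.sub hg)).ws0 (hW1 g hg) hc⟩

/-- Values are monotone. -/
theorem slp_le_val {f₁ f₂ : ℚ → ℝ} {x r₁ r₂ s₁ s₂ δ : ℝ} (hδ : 0 < δ)
    (h : ∀ q : ℚ, |(q : ℝ) - x| < δ → f₁ q ≤ f₂ q) (h1 : Slp f₁ x r₁ s₁) (h2 : Slp f₂ x r₂ s₂) :
    r₁ ≤ r₂ := by
  by_contra hcon
  push Not at hcon
  obtain ⟨δ₁, hδ₁, k1⟩ := h1 1 one_pos
  obtain ⟨δ₂, hδ₂, k2⟩ := h2 1 one_pos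
  obtain ⟨m, hm⟩ : ∃ m, m = (r₁ - r₂) / (|s₁| + |s₂| + 2) := ⟨_, rfl⟩
  have hp : 0 < |s₁| + |s₂| + 2 := by positivity
  have hm0 : 0 < m := by rw [hm]; exact div_pos (by linarith) hp
  obtain ⟨d, hd⟩ : ∃ d, d = min (min δ m) (min δ₁ δ₂) := ⟨_, rfl⟩
  have hd0 : 0 < d := by rw [hd]; exact lt_min (lt_min hδ hm0) (lt_min hδ₁ hδ₂)
  have d1 : d ≤ δ := by rw [hd]; exact (min_le_left _ _).trans (min_le_left _ _)
  have d4 : d ≤ m := by rw [hd]; exact (min_le_left _ _).trans (min_le_right _ _)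
  have d2 : d ≤ δ₁ := by rw [hd]; exact (min_le_right _ _).trans (min_le_left _ _)
  have d3 : d ≤ δ₂ := by rw [hd]; exact (min_le_right _ _).trans (min_le_right _ _)
  obtain ⟨q, q1, q2⟩ := exists_rat_btwn (show x < x + d by linarith)
  have hq : |(q : ℝ) - x| = q - x := abs_of_pos (by linarith)
  have k3 := h q (by rw [hq]; linarith)
  have k4 := k1 q (by rw [hq]; linarith)
  have k5 := k2 q (by rw [hq]; linarith)
  rw [hq, abs_le] at k4 k5
  have hpos : 0 < (q : ℝ) - x := by linarith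
  have k6 : -(|s₁| * (q - x)) ≤ s₁ * (q - x) := by
    have := mul_le_mul_of_nonneg_right (neg_abs_le s₁) hpos.le
    linarith
  have k7 : s₂ * (q - x) ≤ |s₂| * (q - x) := mul_le_mul_of_nonneg_right (le_abs_self s₂) hpos.le
  have k8 : ((q : ℝ) - x) * (|s₁| + |s₂| + 2) < r₁ - r₂ := by
    rw [← lt_div_iff₀ hp, ← hm]
    linarith
  nlinarith [k4.1, k5.2]

/-- The numbers of closed planes are at least the numbers of planks: if the values at a window are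
equal, then the slopes are equal. -/
theorem slp_eq_of_le {f₁ f₂ : ℚ → ℝ} {x v s₁ s₂ δ : ℝ} (hδ : 0 < δ)
    (h : ∀ q : ℚ, |(q : ℝ) - x| < δ → f₁ q ≤ f₂ q) (h1 : Slp f₁ x v s₁) (h2 : Slp f₂ x v s₂) :
    s₁ = s₂ := by
  have key : ∀ ε : ℝ, 0 < ε → |s₁ - s₂| ≤ 2 * ε := by
    intro ε hε
    obtain ⟨δ₁, hδ₁, k1⟩ := h1 ε hε
    obtain ⟨δ₂, hδ₂, k2⟩ := h2 ε hε
    obtain ⟨d, hd⟩ : ∃ d, d = min δ (min δ₁ δ₂) := ⟨_, rfl⟩
    have hd0 : 0 < d := by rw [hd]; exact lt_min hδ (lt_min hδ₁ hδ₂)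
    have d1 : d ≤ δ := by rw [hd]; exact min_le_left _ _
    have d2 : d ≤ δ₁ := by rw [hd]; exact (min_le_right _ _).trans (min_le_left _ _)
    have d3 : d ≤ δ₂ := by rw [hd]; exact (min_le_right _ _).trans (min_le_right _ _)
    rw [abs_le]
    constructor
    · -- to the left
      obtain ⟨q, q1, q2⟩ := exists_rat_btwn (show x - d < x by linarith)
      have hq : |(q : ℝ) - x| = x - q := by
        rw [abs_of_neg (by linarith)]
        ring
      have k3 := h q (by rw [hq]; linarith)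
      have k4 := k1 q (by rw [hq]; linarith)
      have k5 := k2 q (by rw [hq]; linarith)
      rw [hq, abs_le] at k4 k5
      have hpos : 0 < x - q := by linarith
      by_contra hcon
      push Not at hcon
      have : (s₁ - s₂) * (x - q) < -(2 * ε) * (x - q) := mul_lt_mul_of_pos_right hcon hpos
      nlinarith [k4.1, k5.2]
    · -- to the right
      obtain ⟨q, q1, q2⟩ := exists_rat_btwn (show x < x + d by linarith)
      have hq : |(q : ℝ) - x| = q - x := abs_of_pos (by linarith)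
      have k3 := h q (by rw [hq]; linarith)
      have k4 := k1 q (by rw [hq]; linarith)
      have k5 := k2 q (by rw [hq]; linarith)
      rw [hq, abs_le] at k4 k5
      have hpos : 0 < (q : ℝ) - x := by linarith
      by_contra hcon
      push Not at hcon
      have : 2 * ε * (q - x) < (s₁ - s₂) * (q - x) := mul_lt_mul_of_pos_right hcon hpos
      nlinarith [k4.1, k5.2]
  have h3 : |s₁ - s₂| ≤ 0 := le_of_forall_pos_le_add fun ε hε => by
    have := key (ε / 2) (by positivity)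
    linarith
  have h4 := abs_nonpos_iff.1 h3
  linarith

/-- **The set form** of a case, from (alpha) and (beta) at a point. -/
theorem case_rc {Γ : ℝ → ℝ → Prop} (hα : RcAlpha Γ) (hβ : RcBeta Γ) : CaseSetStmt Γ := by
  intro S a R h₁ i₀ c s₂ r D σ hC act K W v₁ t e₁ κ K' Q₀ C w₁ V0 V Rh h
  have hb := h.beta.2
  obtain ⟨pe, hpe1, hpe2⟩ := exists_between hb
  obtain ⟨S', rc, hS', hrc⟩ := rc_ext hC.ne i₀ pe
  have hC' := hC.le hS'
  have hW1 : ∀ g ∈ K', W g < 1 := by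
    intro g hg
    have h1 := h.wQ g (h.sub hg)
    have h2 := h.lt g hg
    have h3 := h.wQ Q₀ h.top
    have h4 := (h.pr Q₀ h.top).lt1
    linarith
  have hpos := h.slp_pos (f := rc) hW1 fun w w' _ h1 h2 => hrc.mono hS'.ne h1 h2
  have h' := h.restr (K'' := {g | g ∈ K' ∧ ∃ R s, 0 ≤ s ∧ Slp rc (W g) R s}) (Γ' := Γ)
    (fun g hg => hg.1) hpos fun g hg => h.cond g hg.1
  have hw₁ : (0 : ℚ) < w₁ := by
    have hne : K'.Nonempty := by
      rw [Set.nonempty_iff_ne_empty]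
      intro h1
      refine h.pos ?_
      rw [h1]
      exact MeasureTheory.measure_empty
    obtain ⟨g, hg⟩ := hne
    have h1 := (h.pr g (h.sub hg)).ws0
    have h2 := h.lw g hg
    have : (0 : ℝ) < w₁ := by linarith
    exact_mod_cast this
  obtain ⟨P, hP, g, hg, a₀, α, hLoc, hΓ, -, hPg, -, -⟩ := h'.selH (n := 0)
    (φ := fun _ _ _ => 0) (M := 1) (io := 1) (ε := pe - (σ 1).rot w₁) (w₂ := w₁) (q₂ := 1)
    zero_le_one one_pos (by linarith) one_pos (fun g hg => h.lw g hg.1)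
    (fun i => i.elim0) (fun i => i.elim0) (fun i => i.elim0)
  have hLoc' := hLoc.le hS'.le
  obtain ⟨hgK, Rc, s, hs, hRc⟩ := hg
  have hR := hC'.row 1 one_pos le_rfl hC'.D1
  have hw₁1 : w₁ ≤ 1 := by
    have h11 := h.w1
    have h12 := h.wQ Q₀ h.top
    have h13 := (h.pr Q₀ h.top).lt1
    have : (w₁ : ℝ) ≤ 1 := by linarith
    exact_mod_cast this
  have hpe0 : 0 ≤ pe := by
    have := num_nonneg hS'.ne (hR.rot w₁ hw₁.le hw₁1)
    linarith
  have hws := (h.pr g (h.sub hgK)).ws0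
  have hws1 := hW1 g hgK
  have hcmp : ∀ q : ℚ, |(q : ℝ) - W g| < min (W g) (1 - W g) → (σ 1).th q - q ≤ rc q := by
    intro q hq
    have h1 := abs_lt.1 (hq.trans_le (min_le_left _ _))
    have h2 := abs_lt.1 (hq.trans_le (min_le_right _ _))
    have h3 : (0 : ℝ) ≤ q := by linarith
    have h4 : (q : ℝ) ≤ 1 := by linarith
    exact rc_ge hC' hrc hpe0 hpe2 q (by exact_mod_cast h3) (by exact_mod_cast h4)
  have hth : Slp (fun q : ℚ => (σ 1).th q - q) (W g) (g - W g) (Rh g) := by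
    intro ε hε
    obtain ⟨δ, hδ, h1⟩ := (h.th g hgK).2 ε hε
    refine ⟨δ, hδ, fun q hq => ?_⟩
    have h2 := h1 q hq
    have h3 : (σ 1).th q - q - (g - W g) - Rh g * (q - W g) =
        (σ 1).th q - g - (1 + Rh g) * (q - W g) := by ring
    rw [h3]
    exact h2
  have hge : g - W g ≤ Rc := slp_le_val (lt_min hws (by linarith)) hcmp hth hRc
  have hv₀ : V0 g ≤ (σ 1).rot w₁ := by
    by_contra hcon
    push Not at hcon
    obtain ⟨hV, hslp⟩ := h.rot g hgK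
    obtain ⟨δ, hδ, hδ'⟩ := hslp 1 one_pos
    have hws := (h.pr g (h.sub hgK)).ws0
    have hlw := h.lw g hgK
    have hx : 0 < (V0 g - (σ 1).rot w₁) / (V g + 1) := div_pos (by linarith) (by linarith)
    obtain ⟨q, h1, h2⟩ := exists_rat_btwn (show max (max (W g - δ) 0)
      (W g - (V0 g - (σ 1).rot w₁) / (V g + 1)) < W g from
      max_lt (max_lt (by linarith) hws) (by linarith))
    have h3 : W g - δ < q := ((le_max_left _ _).trans (le_max_left _ _)).trans_lt h1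
    have h4 : (0 : ℝ) < q := ((le_max_right _ _).trans (le_max_left _ _)).trans_lt h1
    have h5 : W g - (V0 g - (σ 1).rot w₁) / (V g + 1) < q := (le_max_right _ _).trans_lt h1
    have h6 : |(q : ℝ) - W g| = W g - q := by
      rw [abs_of_neg (by linarith)]
      ring
    have h7 := hδ' q (by rw [h6]; linarith)
    rw [h6] at h7
    have h8 := (abs_le.1 h7).1
    have h9 : (W g - q) * (V g + 1) < V0 g - (σ 1).rot w₁ := by
      rw [← lt_div_iff₀ (by linarith)]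
      linarith
    have h10 := rw_thm S a R h₁ i₀ c s₂ r D σ hC 1 one_pos le_rfl hC.D1 q w₁
      (by exact_mod_cast h4.le) (by
        have : (q : ℝ) ≤ w₁ := by linarith
        exact_mod_cast this) hw₁1
    nlinarith
  rcases hge.eq_or_lt with h1 | h1
  · rw [← h1] at hRc
    have hsl : Rh g = s := slp_eq_of_le (lt_min hws (by linarith)) hcmp hth hRc
    rw [← hsl] at hRc
    exact hα S' a R h₁ i₀ c s₂ r D σ hC' act _ W v₁ t e₁ Q₀ P g (V0 g) (V g) (Rh g) a₀ α hLoc' hΓ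
      pe rc hpe0 (by linarith) hpe2 hrc hRc
  · exact hβ S' a R h₁ i₀ c s₂ r D σ hC' act _ W v₁ t e₁ Q₀ P g (V0 g) (V g) (Rh g) a₀ α hLoc' hΓ
      pe rc Rc s hpe0 (by linarith) hpe2 hrc hs hRc h1

end Pool.S6C
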