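import Pool.Agent.H84.DPC.Zon
import Pool.Agent.H45.DPA.One
import Pool.Agent.H71.DPC.Tim

/-!
# The double plateau, part (alpha): the assembly

`dpla_alpha`: the class half from its pieces; `dpla_set`: the set form, with part (beta).
-/

set_option autoImplicit false

namespace Pool.S6C

open Finset Real
open Pool.Agent.H49.Ent Pool.Agent.H32.Dense Pool.STK Pool.KA Pool.KSAT Pool.K2S Pool.PB Pool.KS6
  Pool.Sel51

/-- A window below: the label is a function of the finer label. -/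
theorem slam_eq_le {J : ℕ} {F : Fam 3 J} {w w' : ℕ} (h : w ≤ w') (h' : w' ≤ J) {ω ω' : F.Ω}
    (he : slam F w' ω = slam F w' ω') : slam F w ω = slam F w ω' := by
  rw [slam_coarse F h h' ω, slam_coarse F h h' ω', he]

/-- Only points of the event have positive probability. -/
private theorem mem_cond {Ω : Type} [Fintype Ω] {p : Ω → ℝ} {A : Ω → Prop} {ω : Ω}
    (h : 0 < Pool.Agent.H49.Ent.cond p A True ω) : A ω := by
  unfold Pool.Agent.H49.Ent.cond at h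
  by_contra hA
  have : ¬ (A ω = True) := fun e => hA (by rw [e]; trivial)
  rw [if_neg this] at h
  exact lt_irrefl _ h

/-- **(DPLA, alpha)** from its pieces. -/
theorem dpla_alpha (hLv : DLvStmt) (hFr : DFrStmt) (hAc : DActStmt) (hSt : DStrStmt) :
    RcAlpha (fun v ρ => v = 0 ∧ ρ = 0) := by
  rintro S a₁ R₁ h₁ i₀ c s₂ r' D σ hC act K W v₁ t e₁ Q₀ P g v₀ v ρ a₀ α hL ⟨rfl, rfl⟩ pe rc hpe0
    hpe1 hpe2 hrcN hrc
  have hc := hC.c0
  have hα := hL.α0
  obtain ⟨x₀, lm, κ, ϖ, X₀, N, M, hx₀, hlm, hκ, hκ1, hϖ, hϖ1, hN, hM, hone⟩ :=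
    Pool.DPA.dpla_one (c / 2) (α / 2) 8 (by positivity) (by positivity) (by norm_num)
  obtain ⟨ε, hε⟩ : ∃ ε : ℝ, ε = 1 / (8 * ((N : ℝ) + M + 10)) := ⟨_, rfl⟩
  have hε0 : 0 < ε := by rw [hε]; positivity
  have hε1 : 8 * ((N : ℝ) + M + 10) * ε = 1 := by
    rw [hε]
    field_simp
  obtain ⟨e2, L2, he2, hL2, hfr⟩ := hFr S a₁ R₁ h₁ i₀ c s₂ r' D σ hC act K W v₁ t e₁ Q₀ P g v₀ a₀
    α hL N M ϖ ε hϖ hε0
  obtain ⟨e4, L4, he4, hL4, hac⟩ := hAc S a₁ R₁ h₁ i₀ c s₂ r' D σ hC act K W v₁ t e₁ Q₀ P g v₀ a₀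
    α hL N M ϖ κ ε hϖ hκ hε0
  obtain ⟨e5, L5, he5, hL5, hst⟩ := hSt S a₁ R₁ h₁ i₀ c s₂ r' D σ hC act K W v₁ t e₁ Q₀ P g v₀ a₀
    α hL N M x₀ ε hx₀ hε0
  obtain ⟨L, e, G, hL0, hLL, heL, hZ⟩ := zod_thm S a₁ R₁ h₁ i₀ c s₂ r' D σ hC act K W v₁ t e₁ Q₀
    P g v₀ a₀ α hL rc pe hpe0 hpe1 hpe2 hrc (min e2 (min e4 e5)) (min L2 (min L4 L5))
    (lt_min he2 (lt_min he4 he5)) (lt_min hL2 (lt_min hL4 hL5))
  have l2 : L ≤ L2 := hLL.trans (min_le_left _ _)
  have l4 : L ≤ L4 := hLL.trans ((min_le_right _ _).trans (min_le_left _ _))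
  have l5 : L ≤ L5 := hLL.trans ((min_le_right _ _).trans (min_le_right _ _))
  have m2 : e ≤ e2 * L := heL.trans (mul_le_mul_of_nonneg_right (min_le_left _ _) hL0.le)
  have m4 : e ≤ e4 * L := heL.trans (mul_le_mul_of_nonneg_right
    ((min_le_right _ _).trans (min_le_left _ _)) hL0.le)
  have m5 : e ≤ e5 * L := heL.trans (mul_le_mul_of_nonneg_right
    ((min_le_right _ _).trans (min_le_right _ _)) hL0.le)
  obtain ⟨x, hx⟩ : ∃ x : ℝ, x = ε * L := ⟨_, rfl⟩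
  have hx0 : 0 < x := by rw [hx]; positivity
  obtain ⟨u₀, hu1, hu2⟩ := exists_rat_btwn (show W g - L / 4 < W g - L / 16 by linarith)
  have hG0 : 0 < G := by
    have := hZ.LG
    linarith
  have hg9 := hZ.g9
  have hLG := hZ.LG
  obtain ⟨J₁, hlv⟩ := hLv σ act rc v₁ t e₁ P g (W g) v₀ a₀ α pe L e G hL0 hZ N M x u₀ hx0 (by
      rw [hx]
      have h1 : 8 * ((N : ℝ) + M + 10) * (ε * L) = 8 * ((N : ℝ) + M + 10) * ε * L := by ring
      rw [h1, hε1, one_mul]) hu1.le (by linarith)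
  -- the classes
  have c1 := Pool.DPC.cs_tim hC hlm hx0 hϖ
  have c2 := hfr rc pe x L e G l2 m2 hx.ge hZ u₀ hu1.le (by linarith)
  have c4 := hac rc pe x L e G l4 m4 hx.ge hZ u₀
  have c5 := hst rc pe x L e G hrcN l5 m5 hx.ge hZ u₀ hu1.le (by linarith)
  obtain ⟨J₂, hJ₂⟩ := exists_nat_gt ((X₀ : ℝ) / x)
  rw [div_lt_iff₀ hx0] at hJ₂
  refine Clp.not_false hC.ne (Clp.mono (J₂ := max J₁ J₂) (c1.and (c2.and (c4.and c5))) ?_)
  rintro J hJ F A ⟨⟨hA0, hl, ht⟩, h2, h4, h5⟩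
  have hJ1 : J₁ ≤ J := (le_max_left _ _).trans hJ
  have hJ2 : J₂ ≤ J := (le_max_right _ _).trans hJ
  have hJ2r : (J₂ : ℝ) ≤ J := by exact_mod_cast hJ2
  have hJ0 : (0 : ℝ) ≤ J := Nat.cast_nonneg _
  obtain ⟨w₀, q, V, H, X, hD⟩ := hlv J hJ1
  have hxX := hD.xX
  have hX : X₀ ≤ X := by
    have h1 := mul_le_mul_of_nonneg_right hJ2r hx0.le
    have h3 : (X₀ : ℝ) ≤ X := by linarith
    exact_mod_cast h3
  obtain ⟨sg, a, s, tt, al, nu, kk, bb, hsg, hF, hdf⟩ := h2 w₀ q V H X hD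
  have h4 := h4 w₀ q V H X hD
  have h5 := h5 w₀ q V H X hD sg a s tt al nu kk bb hsg hF
  have ht := (ht X hxX).1
  -- numbers
  have hv := hZ.v0
  have hvR := hZ.vR
  have he0 := hZ.e0
  have hVr : (V : ℝ) ≤ v₀ * J := by
    refine hD.vu.trans (max_le (by positivity) ?_)
    have : 0 ≤ 10 * e * (J : ℝ) := by positivity
    linarith
  have hHr : (H : ℝ) ≤ (g - W g - v₀) * J := by
    refine hD.hu.trans (max_le (mul_nonneg (by linarith) hJ0) ?_)
    have : 0 ≤ 10 * e * (J : ℝ) := by positivity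
    linarith
  have hwu := hD.wu
  have hqu := hD.qu
  push_cast at hwu hqu
  have hX0 : (0 : ℝ) ≤ X := Nat.cast_nonneg _
  have hLJ : 10 * (L * J) ≤ G * J := by
    have := mul_le_mul_of_nonneg_right hLG hJ0
    linarith
  have hGJ : 0 ≤ G * J := by positivity
  have hLJ0 : 0 ≤ L * J := by positivity
  have h1J : (P + G) * J ≤ 1 * J := mul_le_mul_of_nonneg_right hZ.g7.le hJ0
  have hPu : q + V + (M + 1) * X ≤ ⌊(pe + G / 2) * J⌋₊ := by
    refine Nat.le_floor ?_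
    push_cast
    have h7 := mul_le_mul_of_nonneg_right hZ.g1.le hJ0
    linarith
  have hPN : q + V + H + (M + 1) * X ≤ ⌊(P - W g + G / 2) * J⌋₊ := by
    refine Nat.le_floor ?_
    push_cast
    linarith
  have hpow : ∀ m n : ℕ, m ≤ n → (8 : ℝ) / 2 ^ n ≤ 8 / 2 ^ m := by
    intro m n h
    exact div_le_div_of_nonneg_left (by norm_num) (by positivity)
      (pow_le_pow_right₀ (by norm_num) h)
  have hA : ∀ ω, 0 < Pool.Agent.H49.Ent.cond F.p A True ω → A ω := fun ω hω =>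
    mem_cond hω
  have hu0 : ⌊(u₀ : ℝ) * J⌋₊ ≤ w₀ := by
    refine Nat.floor_le_of_le ?_
    have h7 := hD.uw
    have h8 : 0 ≤ e * (J : ℝ) := by positivity
    linarith
  have hw₀J : w₀ ≤ J := by
    have h7 : (w₀ : ℝ) ≤ J := by
      have h8 : 0 ≤ ((N : ℝ) + 2) * X := by positivity
      have h9 : W g * J ≤ (P + G) * J - 2 * (G * J) := by
        have h10 : W g ≤ P - G := by
          have h11 := hL.gP
          have h12 := hZ.g8
          linarith
        have := mul_le_mul_of_nonneg_right h10 hJ0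
        linarith
      linarith
    exact_mod_cast h7
  refine hone J F A sg X (fun j => w₀ + j * X) q V H a s tt al nu kk bb hX
    { bij := hF.bij
      law := hl
      step := fun j _ => le_of_eq (by ring)
      top := ?_
      time := ht
      det := ?_
      vdt := ?_
      bd := fun ω hω => ?_
      on1 := fun ω hω => (hF.on1 ω hω).trans (hpow _ _ hPu)
      on2 := fun ω hω => (hF.on2 ω hω).trans (hpow _ _ hPN)
      an1 := hF.an1
      an2 := hF.an2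
      dfc := hdf
      act := ?_
      str := h5 }
  · -- top
    have h7 : ((w₀ + N * X + q + V + H + (M + 2) * X : ℕ) : ℝ) ≤ J := by
      push_cast
      linarith
    exact_mod_cast h7
  · -- det
    intro ω ω' _ _ h
    have h7 : slam F w₀ ω = slam F w₀ ω' := by simpa using h
    obtain ⟨k1, k2, k3⟩ := hF.fn ω ω' (slam_eq_le hu0 hw₀J h7)
    exact Prod.ext k1 (Prod.ext k2 k3)
  · -- vdt
    have h7 : CH (Pool.Agent.H49.Ent.cond F.p A True) (fun ω => (a ω, s ω, tt ω)) (Fam.pt F) = 0 := by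
      refine CH_eq_zero hl.nonneg ?_
      intro ω ω' hω hω' h
      obtain ⟨k1, k2, k3⟩ := hF.fp ω ω' (hA ω hω) (hA ω' hω') h
      exact Prod.ext k1 (Prod.ext k2 k3)
    rw [h7]
    positivity
  · -- bd
    obtain ⟨k1, k2, k3⟩ := hF.bd ω hω
    exact ⟨k1.trans (by norm_num), k2.trans (by norm_num), k3⟩
  · -- act
    intro k hk n X' hX' hn E hE hPE
    rw [hsg]
    exact h4 k hk n X' hX' hn E hE hPE

/-- **(DPLA)** the set form, from the pieces of (alpha) and from (beta). -/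
theorem dpla_set (hLv : DLvStmt) (hFr : DFrStmt) (hAc : DActStmt) (hSt : DStrStmt)
    (hβ : RcBeta (fun v ρ => v = 0 ∧ ρ = 0)) : CaseSetStmt (fun v ρ => v = 0 ∧ ρ = 0) :=
  case_rc (dpla_alpha hLv hFr hAc hSt) hβ

end Pool.S6C
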