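import Pool.Agent.H84.DPC.Stmts

/-!
# The double plateau, part (alpha): the integer levels exist
-/

set_option autoImplicit false

namespace Pool.S6C

open Finset Real
open Pool.Agent.H49.Ent Pool.Agent.H32.Dense Pool.STK Pool.KA Pool.KSAT Pool.K2S Pool.PB Pool.KS6
  Pool.Sel51

/-- **(T1)** The integer levels exist. -/
theorem dlv84 : DLvStmt := by
  intro σ act rc v₁ t e₁ P g wr v₀ a₀ α pe L e G hL hZ N M x u₀ hx hxL hu1 hu2
  have he := hZ.e0
  have heL := hZ.eL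
  have hLG := hZ.LG
  have h8 := hZ.g8
  have h9 := hZ.g9
  obtain ⟨J₁, hJ₁⟩ := exists_nat_gt (1 / x + 1 / e)
  refine ⟨J₁, fun J hJ => ?_⟩
  have hJ1 : 1 / x + 1 / e < J := hJ₁.trans_le (by exact_mod_cast hJ)
  have hx' : 0 < 1 / x := by positivity
  have he' : 0 < 1 / e := by positivity
  have hxJ : 1 ≤ x * J := by
    have h1 : 1 / x ≤ J := by linarith only [hJ1, he']
    rw [div_le_iff₀ hx] at h1
    linarith only [h1]
  have heJ : 1 ≤ e * J := by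
    have h1 : 1 / e ≤ J := by linarith only [hJ1, hx']
    rw [div_le_iff₀ he] at h1
    linarith only [h1]
  have hJ0 : (0 : ℝ) ≤ J := Nat.cast_nonneg _
  have hwr : 0 < wr := by linarith only [h9, hLG, hL]
  have hPg : 0 < P - g := by linarith only [h8, hLG, hL]
  have k1 := Nat.floor_le (show 0 ≤ wr * (J : ℝ) by positivity)
  have k2 := Nat.lt_floor_add_one (wr * (J : ℝ))
  have k3 := Nat.floor_le (show 0 ≤ (P - g) * (J : ℝ) by positivity)
  have k4 := Nat.lt_floor_add_one ((P - g) * (J : ℝ))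
  have k5 := Nat.le_ceil (x * (J : ℝ))
  have k6 := Nat.ceil_lt_add_one (show 0 ≤ x * (J : ℝ) by positivity)
  have k7 := Nat.lt_floor_add_one ((v₀ - 10 * e) * (J : ℝ))
  have k8 := Nat.lt_floor_add_one ((g - wr - v₀ - 10 * e) * (J : ℝ))
  have hXx : ((⌈x * (J : ℝ)⌉₊ : ℕ) : ℝ) ≤ 2 * x * J := by linarith only [k6, hxJ]
  have hxLJ : 8 * ((N : ℝ) + M + 10) * x * J ≤ L * J := mul_le_mul_of_nonneg_right hxL hJ0
  have heLJ : 100 * e * J ≤ L * J := mul_le_mul_of_nonneg_right heL hJ0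
  have hu1J := mul_le_mul_of_nonneg_right hu1 hJ0
  have hu2J := mul_le_mul_of_nonneg_right hu2 hJ0
  have hxJ0 : 0 ≤ x * (J : ℝ) := by positivity
  have hN0 : (0 : ℝ) ≤ N := Nat.cast_nonneg _
  have hM0 : (0 : ℝ) ≤ M := Nat.cast_nonneg _
  have hNx : 0 ≤ (N : ℝ) * (x * J) := mul_nonneg hN0 hxJ0
  have hMx : 0 ≤ (M : ℝ) * (x * J) := mul_nonneg hM0 hxJ0
  have hNX : ((N : ℝ) + 2) * ((⌈x * (J : ℝ)⌉₊ : ℕ) : ℝ) ≤ ((N : ℝ) + 2) * (2 * x * J) :=
    mul_le_mul_of_nonneg_left hXx (by positivity)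
  have hMX : ((M : ℝ) + 2) * ((⌈x * (J : ℝ)⌉₊ : ℕ) : ℝ) ≤ ((M : ℝ) + 2) * (2 * x * J) :=
    mul_le_mul_of_nonneg_left hXx (by positivity)
  have hfl : ∀ y : ℝ, ((⌊y⌋₊ : ℕ) : ℝ) ≤ max 0 y := by
    intro y
    rcases le_or_gt 0 y with h | h
    · exact (Nat.floor_le h).trans (le_max_right _ _)
    · rw [Nat.floor_of_nonpos h.le]
      exact (le_of_eq Nat.cast_zero).trans (le_max_left _ _)
  refine ⟨⌊wr * (J : ℝ)⌋₊, ⌊(P - g) * (J : ℝ)⌋₊, ⌊(v₀ - 10 * e) * (J : ℝ)⌋₊,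
    ⌊(g - wr - v₀ - 10 * e) * (J : ℝ)⌋₊, ⌈x * (J : ℝ)⌉₊,
    { xX := k5
      Xx := hXx
      ul := hu1
      uw := by linarith only [k2, hu2J, heLJ, heJ]
      wu := ?_
      ql := by linarith only [k4, heLJ, heJ]
      qu := ?_
      vu := hfl _
      vl := by linarith only [k7, heJ]
      hu := hfl _
      hl := by linarith only [k8, heJ] }⟩
  · push_cast
    linarith only [k1, hNX, hxLJ, hNx, hMx, hxJ0]
  · push_cast
    linarith only [k3, hMX, hxLJ, hNx, hMx, hxJ0]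

end Pool.S6C
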