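import Pool.Agent.H99.DPC.Frm
import Pool.Agent.H95.S6.Rte
import Pool.Agent.H23.S6E.Ld2

/-!
# The double plateau: the block of the position is not full

The boxes of all windows are natural boxes of the window `u₀` of the frame, since `rot` and
`th - w` are constant (after helper35, for the levels of `Stmts.lean`).
-/

set_option autoImplicit false

namespace Pool.S6C

open Finset Real
open Pool.Agent.H49.Ent Pool.Agent.H32.Dense Pool.STK Pool.KA Pool.KSAT Pool.K2S Pool.PB Pool.KS6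
  Pool.Sel51 Pool.KA.Vd

/-- **(T2 + T3)** The frames exist, and the block of the position is not full. -/
theorem dfr84 (hLD : LDOneStmt) : DFrStmt := by
  intro S a R h₁ i₀ c s₂ r D σ hC act K W v₁ t e₁ Q₀ P g v₀ a₀ α hL N M ϖ ε hϖ hε
  have hR := hC.row 1 one_pos le_rfl hC.D1
  have hc := hC.c0
  have hl2 : 0 < Real.log 2 := Real.log_pos (by norm_num)
  have hP0 : 0 < P := by
    have h1 := hL.gP
    have h2 := (hL.pr g hL.thk).half
    linarith
  have hP1 : P < 1 := (hL.pr P hL.row).lt1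
  obtain ⟨δ, hδd⟩ : ∃ δ, δ = c / 2 * Real.log 2 := ⟨_, rfl⟩
  have hδ : 0 < δ := by rw [hδd]; positivity
  obtain ⟨ε', hε'⟩ : ∃ ε', ε' = δ * ε / 64 := ⟨_, rfl⟩
  have hε'0 : 0 < ε' := by rw [hε']; positivity
  obtain ⟨ε₀, X₀, hε₀, hX₀, hld⟩ :=
    hLD S a R h₁ i₀ c s₂ r D σ hC act K W v₁ t e₁ Q₀ P g v₀ 0 0 a₀ α hL ε' hε'0
  obtain ⟨X₁, hX₁, hrt⟩ := rte hC hP0 hP1 hL.rate hϖ hε'0
  refine ⟨1, min X₀ X₁ / 4, one_pos, div_pos (lt_min hX₀ hX₁) (by norm_num), ?_⟩
  intro rc pe x L e G hLL heL1 hεx hZ u₀ hu1 hu2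
  have he0 := hZ.e0
  have heL := hZ.eL
  have hL0 : 0 < L := by linarith
  have hx0 : 0 < x := (mul_pos hε hL0).trans_le hεx
  obtain ⟨Y, hY⟩ : ∃ Y, Y = 4 * L := ⟨_, rfl⟩
  have hY0 : 0 < Y := by rw [hY]; linarith
  have hYC : Y ≤ min X₀ X₁ := by
    rw [hY]
    linarith
  have hYX₀ : Y ≤ X₀ := hYC.trans (min_le_left _ _)
  have hYX₁ : Y ≤ X₁ := hYC.trans (min_le_right _ _)
  have hu₀ : |(u₀ : ℝ) - W g| ≤ L := by
    rw [abs_le]
    constructor <;> linarith
  have hu₀Y : |(u₀ : ℝ) - W g| ≤ Y := by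
    rw [hY]
    linarith
  obtain ⟨η₀, hη₀, hfr⟩ := dfr_frames hC hL hZ hu1 hu2
  obtain ⟨η, hηd⟩ : ∃ η, η = min η₀ (ε₀ * Y) := ⟨_, rfl⟩
  have hη : 0 < η := by rw [hηd]; exact lt_min hη₀ (by positivity)
  have hη1 : η ≤ η₀ := by rw [hηd]; exact min_le_left _ _
  have hηη : η ≤ ε₀ * Y := by rw [hηd]; exact min_le_right _ _
  obtain ⟨J₁, hJ₁⟩ := exists_nat_gt (8 * (K1 8 + K2 8) / (δ * x) + 1)
  refine Clp.mono (J₂ := J₁) (((((hld Y hY0 hYX₀ u₀ hu₀Y).ev hϖ).and
    (hrt Y hY0 hYX₁)).and hC.pos).and (hfr η hη hη1 N M x)) ?_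
  rintro J hJ F A ⟨⟨⟨h1, h2⟩, hA0⟩, h3⟩ w₀ q V H X hD
  obtain ⟨sg, a', s', t', al, nu, kk, bb, h0, hF, hcase⟩ := h3 w₀ q V H X hD
  refine ⟨sg, a', s', t', al, nu, kk, bb, h0, hF, ?_⟩
  intro j hj k hk B hB hPB
  have hsg := hF.bij
  have hJ' : 8 * (K1 8 + K2 8) / (δ * x) + 1 < J := hJ₁.trans_le (by exact_mod_cast hJ)
  have hKK : 0 ≤ 8 * (K1 8 + K2 8) / (δ * x) := by
    have : 0 ≤ K1 8 := K1_nonneg (by norm_num)
    have : 0 ≤ K2 8 := K2_nonneg (by norm_num)
    positivity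
  have hJr : (0 : ℝ) < J := by linarith
  have hJ'' : 8 * (K1 8 + K2 8) / (δ * x) < J := by linarith
  rw [div_lt_iff₀ (by positivity)] at hJ''
  have hB0 : 0 < Pe F.p B := lt_of_lt_of_le (mul_pos hϖ hA0) hPB
  have hlB := isLaw_cond F.isLaw hB0
  have hbd : ∀ ω, A ω → |a' ω| ≤ 8 ∧ |s' ω| ≤ 8 ∧ |t' ω| ≤ 8 := by
    intro ω hω
    obtain ⟨b1, b2, b3⟩ := hF.bd ω hω
    exact ⟨b1.trans (by norm_num), b2.trans (by norm_num), b3⟩
  -- the levels
  have hxX := hD.xX
  have hwl := hD.uw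
  have hwu := hD.wu
  have hql := hD.ql
  have hqu := hD.qu
  have hva := hD.vu
  have hva' := hD.vl
  have hha := hD.hu
  have hha' := hD.hl
  have hv0 := hZ.v0
  have hvR := hZ.vR
  have hXr : (0 : ℝ) ≤ X := Nat.cast_nonneg X
  have hjX : ((j : ℝ)) * X ≤ N * X := mul_le_mul_of_nonneg_right (by exact_mod_cast hj.le) hXr
  have hkX : ((k : ℝ)) * X ≤ M * X := mul_le_mul_of_nonneg_right (by exact_mod_cast hk.le) hXr
  have hjX0 : 0 ≤ ((j : ℝ)) * X := by positivity
  have hkX0 : 0 ≤ ((k : ℝ)) * X := by positivity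
  have heJL : 100 * (e * J) ≤ L * J := by
    have := mul_le_mul_of_nonneg_right heL hJr.le
    linarith only [this]
  have heJ0 : 0 ≤ e * (J : ℝ) := by positivity
  push_cast at hwu hqu
  have hJL : 0 ≤ L * (J : ℝ) := by positivity
  have hu1J : W g * J - L / 4 * J ≤ u₀ * J := by
    have := mul_le_mul_of_nonneg_right hu1 hJr.le
    linarith only [this]
  have hu2J : u₀ * J ≤ W g * J := mul_le_mul_of_nonneg_right hu2 hJr.le
  have hVle : (V : ℝ) ≤ v₀ * J := by
    refine hva.trans (max_le (by positivity) ?_)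
    linarith only [heJ0]
  have hHle : (H : ℝ) ≤ (g - W g - v₀) * J := by
    refine hha.trans (max_le (mul_nonneg (by linarith) hJr.le) ?_)
    linarith only [heJ0]
  have hV0 : (0 : ℝ) ≤ V := Nat.cast_nonneg V
  have hH0 : (0 : ℝ) ≤ H := Nat.cast_nonneg H
  -- the positions
  have k2 := h2 B hB hPB (w₀ + j * X + q + V + H + k * X) (w₀ + j * X + q + V + H + k * X + X)
    (by omega) (by
      rw [abs_le, hY]
      push_cast
      constructor
      · linarith only [hwl, hql, hva', hha', hu1J, heJL, heJ0, hJL, hjX0, hkX0]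
      · linarith only [hwu, hqu, hVle, hHle, hjX, hkX, hXr, hJL]) (by
      rw [abs_le, hY]
      push_cast
      constructor
      · linarith only [hwl, hql, hva', hha', hu1J, heJL, heJ0, hJL, hjX0, hkX0, hXr]
      · linarith only [hwu, hqu, hVle, hHle, hjX, hkX, hXr, hJL])
  have k3 := block_le (σ := sg) (a := a') (s := s') (t := t') (F := F) hlB hsg
    (r := w₀ + j * X + q + k * X) (U := w₀ + j * X + q + V + k * X)
    (P := w₀ + j * X + q + V + H + k * X) (r' := w₀ + j * X + q + k * X + X)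
    (U' := w₀ + j * X + q + V + k * X + X) (P' := w₀ + j * X + q + V + H + k * X + X)
    (B := 8) (by norm_num) (by omega) (by omega) (by omega) (by omega) (by omega) (by omega)
    (by omega) (fun ω hω => hbd ω (hB ω (ldm_mem hω))) F.W
  have e2 : ((((w₀ + j * X + q + k * X + X : ℕ) : ℝ) - ((w₀ + j * X + q + k * X : ℕ) : ℝ)) +
      (((w₀ + j * X + q + V + k * X + X : ℕ) : ℝ) - ((w₀ + j * X + q + V + k * X : ℕ) : ℝ)) -
      2 * (((w₀ + j * X + q + V + H + k * X + X : ℕ) : ℝ) -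
      ((w₀ + j * X + q + V + H + k * X : ℕ) : ℝ))) * Real.log 2 = 0 := by
    push_cast
    ring
  rw [e2] at k3
  have e3 : (3 - c) * (((w₀ + j * X + q + V + H + k * X + X : ℕ) : ℝ) -
      ((w₀ + j * X + q + V + H + k * X : ℕ) : ℝ)) * Real.log 2 = (3 - c) * X * Real.log 2 := by
    push_cast
    ring
  rw [e3] at k2
  have e4 : ε' * Y * J ≤ δ / 16 * X := by
    have m1 : ε' * Y * J = δ / 16 * (ε * L * J) := by
      rw [hε', hY]
      ring
    have m2 : ε * L * J ≤ X := (mul_le_mul_of_nonneg_right hεx hJr.le).trans hxX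
    rw [m1]
    exact mul_le_mul_of_nonneg_left m2 (by positivity)
  have e5 : K1 8 + K2 8 ≤ δ / 8 * X := by
    have m1 : δ / 8 * (x * J) ≤ δ / 8 * X := mul_le_mul_of_nonneg_left hxX (by positivity)
    linarith only [m1, hJ'']
  have e6 : 0 ≤ δ * (X : ℝ) := by positivity
  have e7 : (3 - c / 2) * X * Real.log 2 = (3 - c) * X * Real.log 2 + δ * X := by
    rw [hδd]
    ring
  rw [e7]
  suffices hv : F.vdf (Pool.Agent.H49.Ent.cond F.p B True) sg (w₀ + j * X + q + k * X + X)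
      (w₀ + j * X + q + V + k * X + X) (w₀ + j * X + q + V + H + k * X + X) a' s' t' F.W ≤
      ε' * Y * J by
    linarith only [hv, k2, k3, e4, e5, e6]
  rcases hcase with ⟨z, E, hNL, hfz, hbd', hE1, hE2, hcl⟩ | ⟨-, hV, hH, -⟩
  · -- natural planks
    obtain ⟨n1, n2, -⟩ := hZ.aff u₀ hu₀
    rw [abs_le] at n1 n2 hu₀
    have hg7 := hZ.g7
    have hg8 := hZ.g8
    have hLG := hZ.LG
    have hW0 := hZ.g9
    have hu0 : (0 : ℝ) ≤ u₀ := by linarith
    have hu0' : (0 : ℚ) ≤ u₀ := by exact_mod_cast hu0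
    have hu1'' : (u₀ : ℝ) ≤ 1 := by
      have := hL.W1
      linarith
    have hu1' : u₀ ≤ 1 := by exact_mod_cast hu1''
    have hrot0 : 0 ≤ (σ 1).rot u₀ := num_nonneg hC.ne (hR.rot u₀ hu0' hu1')
    have htrv : (u₀ : ℝ) + (σ 1).rot u₀ ≤ (σ 1).th u₀ := by
      rcases min_le_iff.1 (trv hC le_rfl hR u₀ hu0' hu1'') with h | h
      · exact h
      · linarith
    obtain ⟨μ, hμ⟩ : ∃ μ, μ = (σ 1).rot u₀ - V / J := ⟨_, rfl⟩
    have hμJ : μ * J = (σ 1).rot u₀ * J - V := by
      rw [hμ]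
      field_simp
    have n1l : v₀ * J - e * J ≤ (σ 1).rot u₀ * J := by
      have := mul_le_mul_of_nonneg_right (show v₀ - e ≤ (σ 1).rot u₀ by linarith [n1.1]) hJr.le
      linarith
    have n1r : (σ 1).rot u₀ * J ≤ v₀ * J + e * J := by
      have := mul_le_mul_of_nonneg_right (show (σ 1).rot u₀ ≤ v₀ + e by linarith [n1.2]) hJr.le
      linarith
    have hrotJ : 0 ≤ (σ 1).rot u₀ * J := by positivity
    have hμ0 : 0 ≤ μ * J := by
      rw [hμJ]
      rcases le_max_iff.1 hva with h | h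
      · linarith only [h, hrotJ]
      · linarith only [h, n1l, heJ0]
    have hμ1 : μ * J ≤ 12 * (e * J) := by
      rw [hμJ]
      linarith only [n1r, hva']
    have hRR : (V : ℝ) + H ≤ (σ 1).th u₀ * J - u₀ * J - μ * J := by
      rw [hμJ]
      have m1 : (u₀ : ℝ) * J + (σ 1).rot u₀ * J ≤ (σ 1).th u₀ * J := by
        have := mul_le_mul_of_nonneg_right htrv hJr.le
        linarith only [this]
      have m2 : (g - W g - e) * J ≤ (σ 1).th u₀ * J - u₀ * J := by
        have := mul_le_mul_of_nonneg_right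
          (show g - W g - e ≤ (σ 1).th u₀ - u₀ by linarith [n2.1]) hJr.le
        linarith only [this]
      rcases le_max_iff.1 hha with h | h
      · have : (H : ℝ) = 0 := le_antisymm h hH0
        linarith only [this, m1]
      · linarith only [h, m2, n1r, heJ0]
    obtain ⟨r', hr'⟩ : ∃ r' : ℕ, r' = w₀ + j * X + q + k * X + X := ⟨_, rfl⟩
    have hr'r : (r' : ℝ) = w₀ + j * X + q + k * X + X := by
      rw [hr']
      push_cast
      ring
    have hUe : w₀ + j * X + q + V + k * X + X = r' + V := by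
      rw [hr']
      ring
    have hPe' : w₀ + j * X + q + V + H + k * X + X = r' + V + H := by
      rw [hr']
      ring
    obtain ⟨q', hq'⟩ : ∃ q' : ℝ, q' = r' / J - u₀ - μ := ⟨_, rfl⟩
    have hq'J : q' * J = r' - u₀ * J - μ * J := by
      rw [hq']
      field_simp
    have k1 := h1 B hB hPB sg hsg h0 z
      ((show NL F B sg ⌊(u₀ : ℝ) * J⌋₊ ⌊((σ 1).rot u₀ - η) * J⌋₊ ⌊((σ 1).th u₀ - η) * J⌋₊ z from
        ⟨fun ω hω => hNL.inc ω (hB ω hω), fun ω ω' x y => hNL.vis ω ω' (hB ω x) (hB ω' y),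
          fun ω ω' x y => hNL.con ω ω' (hB ω x) (hB ω' y)⟩).mono
        (Nat.floor_le_floor (mul_le_mul_of_nonneg_right (by linarith) hJr.le))
        (Nat.floor_le_floor (mul_le_mul_of_nonneg_right (by linarith) hJr.le)))
      a' s' t' E (fun ω ω' x y => hfz ω ω' (hB ω x) (hB ω' y)) (fun ω x => hbd ω (hB ω x)) hE1
      (hE2.trans (mul_le_mul_of_nonneg_right hηη hJr.le)) (fun ω x => hcl ω (hB ω x)) r' (r' + V)
      (r' + V + H) q' (by
        rw [abs_le]
        constructor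
        · refine le_of_mul_le_mul_right ?_ hJr
          have e1 : (q' - (P - g)) * J = q' * J - (P - g) * J := by ring
          rw [e1, hq'J, hr'r, hY]
          linarith only [hwl, hql, hμ1, hu1J, hu2J, heJL, heJ0, hJL, hjX0, hkX0, hXr]
        · refine le_of_mul_le_mul_right ?_ hJr
          have e1 : (q' - (P - g)) * J = q' * J - (P - g) * J := by ring
          rw [e1, hq'J, hr'r, hY]
          linarith only [hwu, hqu, hμ0, hu1J, heJL, heJ0, hJL, hjX, hkX, hXr]) (by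
        have e1 : ((u₀ : ℝ) + q') * J = u₀ * J + q' * J := by ring
        rw [e1, hq'J]
        linarith only [hμ0]) (by
        have e1 : ((u₀ : ℝ) + (σ 1).rot u₀ + q') * J = u₀ * J + (σ 1).rot u₀ * J + q' * J := by
          ring
        rw [e1, hq'J, hμJ]
        push_cast
        linarith only []) (by
        have e1 : ((σ 1).th u₀ + q') * J = (σ 1).th u₀ * J + q' * J := by ring
        rw [e1, hq'J]
        push_cast
        linarith only [hRR]) (by omega) (by omega)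
    rw [← hr', hUe, hPe']
    exact k1
  · -- trivial planks
    subst hV hH
    refine (vdf_le hlB F.W).trans ?_
    have e8 : ((((w₀ + j * X + q + 0 + 0 + k * X + X : ℕ) : ℝ) -
        ((w₀ + j * X + q + k * X + X : ℕ) : ℝ)) +
        (((w₀ + j * X + q + 0 + 0 + k * X + X : ℕ) : ℝ) -
        ((w₀ + j * X + q + 0 + k * X + X : ℕ) : ℝ))) * Real.log 2 = 0 := by
      push_cast
      ring
    rw [e8]
    positivity

end Pool.S6C
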