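import Pool.Agent.H84.DPC.Stmts
import Pool.Agent.H33.S6.Zof

/-!
# The double plateau, part (alpha): the zone exists
-/

set_option autoImplicit false

namespace Pool.S6C

open Finset Real
open Pool.Agent.H49.Ent Pool.Agent.H32.Dense Pool.STK Pool.KA Pool.KSAT Pool.K2S Pool.PB Pool.KS6
  Pool.Sel51

variable {S : PCl 3} {a R h₁ : ℝ} {i₀ : Fin 3} {c s₂ : ℝ} {r : ℝ → ℝ} {D : Set ℝ} {σ : ℝ → Row}
  {act : ℚ → ℝ} {K : Set ℝ} {W : ℝ → ℝ} {v₁ t : ℚ} {e₁ Q₀ P g v₀ a₀ α : ℝ}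

/-- Near the window. -/
private theorem near84 (hL : Loc S i₀ c s₂ r D σ act K W v₁ t e₁ Q₀ P g v₀ 0 0 a₀ α) {e : ℝ}
    (he : 0 < e) : ∃ q : ℚ, W g < q ∧ (q : ℝ) < 1 ∧ (q : ℝ) - W g < e ∧ |(σ 1).rot q - v₀| < e ∧
      |(σ 1).th q - g| < e := by
  have hW1 := hL.W1
  obtain ⟨δ₁, hδ₁, h1⟩ := hL.rot 1 one_pos
  obtain ⟨δ₂, hδ₂, h2⟩ := hL.th 1 one_pos
  obtain ⟨δ, hδ⟩ : ∃ δ : ℝ, δ = min (min δ₁ δ₂) (min (1 - W g) (e / 3)) := ⟨_, rfl⟩
  have hδ0 : 0 < δ := by
    rw [hδ]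
    exact lt_min (lt_min hδ₁ hδ₂) (lt_min (by linarith) (by linarith))
  have d1 : δ ≤ δ₁ := by rw [hδ]; exact (min_le_left _ _).trans (min_le_left _ _)
  have d2 : δ ≤ δ₂ := by rw [hδ]; exact (min_le_left _ _).trans (min_le_right _ _)
  have d3 : δ ≤ 1 - W g := by rw [hδ]; exact (min_le_right _ _).trans (min_le_left _ _)
  have d4 : δ ≤ e / 3 := by rw [hδ]; exact (min_le_right _ _).trans (min_le_right _ _)
  obtain ⟨q, q1, q2⟩ := exists_rat_btwn (show W g < W g + δ by linarith)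
  have hab : |(q : ℝ) - W g| = q - W g := abs_of_pos (by linarith)
  have a1 := h1 q (by rw [hab]; linarith)
  have a2 := h2 q (by rw [hab]; linarith)
  rw [hab] at a1 a2
  rw [abs_le] at a1 a2
  refine ⟨q, q1, by linarith, by linarith, ?_, ?_⟩
  · rw [abs_lt]
    constructor <;> linarith [a1.1, a1.2]
  · rw [abs_lt]
    constructor <;> linarith [a2.1, a2.2]

/-- The value of the directions is nonnegative. -/
private theorem v0_nn84 (hC : Cs S a R h₁ i₀ c s₂ r D σ)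
    (hL : Loc S i₀ c s₂ r D σ act K W v₁ t e₁ Q₀ P g v₀ 0 0 a₀ α) : 0 ≤ v₀ := by
  refine le_of_forall_pos_le_add fun e he => ?_
  obtain ⟨q, q1, q2, q3, q4, q5⟩ := near84 hL he
  have hR := hC.row 1 one_pos le_rfl hC.D1
  have h0 := hL.w0
  have h3 : 0 ≤ (σ 1).rot q := num_nonneg hC.ne (hR.rot q (by
    have : (0 : ℝ) ≤ q := by linarith
    exact_mod_cast this) (by exact_mod_cast q2.le))
  rw [abs_lt] at q4
  linarith [q4.2]

/-- The planks are at least as thick as the trivial ones. -/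
private theorem v0_leR84 (hC : Cs S a R h₁ i₀ c s₂ r D σ)
    (hL : Loc S i₀ c s₂ r D σ act K W v₁ t e₁ Q₀ P g v₀ 0 0 a₀ α) : v₀ ≤ g - W g := by
  have hg1 : g < 1 := (hL.pr g hL.thk).lt1
  refine le_of_forall_pos_le_add fun e he => ?_
  obtain ⟨q, q1, q2, q3, q4, q5⟩ := near84 hL (e := min (e / 3) (1 - g))
    (lt_min (by linarith) (by linarith))
  have h1 : min (e / 3) (1 - g) ≤ e / 3 := min_le_left _ _
  have h2 : min (e / 3) (1 - g) ≤ 1 - g := min_le_right _ _
  have hR := hC.row 1 one_pos le_rfl hC.D1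
  have h0 := hL.w0
  have h3 := trv hC le_rfl hR q (by
    have : (0 : ℝ) ≤ q := by linarith
    exact_mod_cast this) q2.le
  rw [abs_lt] at q4 q5
  rcases min_le_iff.1 h3 with h | h
  · linarith [q4.1, q5.2]
  · linarith [q5.2]

/-- **(T1)** The zone exists. -/
theorem zod_thm : ZodStmt := by
  intro S a R h₁ i₀ c s₂ r D σ hC act K W v₁ t e₁ Q₀ P g v₀ a₀ α hL rc pe hpe0 hpe1 hpe2 hrc
    e' L₀ he' hL₀
  have k2 := hL.gP
  have k3 := hL.gam
  have k4 := hL.vel
  have k5 := hL.small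
  have k6 := hL.adm.ab g hL.thk
  have k7 := (hL.pr P hL.row).lt1
  have k8 := hL.w0
  obtain ⟨G, hG, hall⟩ := exists_room [pe - ((P - g) + v₀), (σ 1).pi - pe,
    (σ 1).sN v₁ t - (P - W g), t - v₁ + e₁ - (P - W g), e₁ - (P - g), v₁ - W g, 1 - P, P - g,
    W g] (by
    intro x hx
    simp only [List.mem_cons, List.not_mem_nil, or_false] at hx
    rcases hx with h | h | h | h | h | h | h | h | h
    · rw [h]; linarith
    · rw [h]; linarith
    · rw [h]; linarith
    · rw [h]; linarith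
    · rw [h]; linarith
    · rw [h]; linarith
    · rw [h]; linarith
    · rw [h]; linarith
    · rw [h]; linarith)
  simp only [List.mem_cons, List.not_mem_nil, or_false, forall_eq_or_imp, forall_eq] at hall
  obtain ⟨a1, a2, a3, a4, a5, a6, a7, a8, a9⟩ := hall
  obtain ⟨ε, hε⟩ : ∃ ε : ℝ, ε = min e' (1 / 100) := ⟨_, rfl⟩
  have hε0 : 0 < ε := by rw [hε]; exact lt_min he' (by norm_num)
  have hε1 : ε ≤ e' := by rw [hε]; exact min_le_left _ _
  have hε2 : ε ≤ 1 / 100 := by rw [hε]; exact min_le_right _ _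
  obtain ⟨δ₁, hδ₁, h1⟩ := hL.rot ε hε0
  obtain ⟨δ₂, hδ₂, h2⟩ := hL.th ε hε0
  obtain ⟨δ₃, hδ₃, h3⟩ := hL.aslp ε hε0
  obtain ⟨δ₄, hδ₄, h4⟩ := hrc ε hε0
  obtain ⟨L, hL0, hall⟩ := exists_room [δ₁, δ₂, δ₃, δ₄, L₀, G / 10] (by
    intro x hx
    simp only [List.mem_cons, List.not_mem_nil, or_false] at hx
    rcases hx with h | h | h | h | h | h <;> · rw [h]; positivity)
  simp only [List.mem_cons, List.not_mem_nil, or_false, forall_eq_or_imp, forall_eq] at hall
  obtain ⟨b1, b2, b3, b4, b5, b6⟩ := hall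
  have hsc : ∀ y : ℝ, |y| ≤ L → ε * |y| ≤ ε * L := fun y hy =>
    mul_le_mul_of_nonneg_left hy hε0.le
  have hεL : ε * L ≤ 1 / 100 * L := mul_le_mul_of_nonneg_right hε2 hL0.le
  refine ⟨L, ε * L, G, hL0, b5.le, mul_le_mul_of_nonneg_right hε1 hL0.le,
    { α0 := hL.α0
      e0 := by positivity
      eL := by linarith
      LG := by linarith
      v0 := v0_nn84 hC hL
      vR := v0_leR84 hC hL
      aff := fun q hq => by
        have c1 := (h1 q (by linarith)).trans (hsc _ hq)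
        have c2 := (h2 q (by linarith)).trans (hsc _ hq)
        have c4 := (h4 q (by linarith)).trans (hsc _ hq)
        rw [zero_mul, sub_zero] at c1 c4
        rw [add_zero, one_mul] at c2
        rw [abs_le] at c4
        exact ⟨c1, c2, by linarith [c4.2]⟩
      act := fun q hq => (h3 q (by linarith)).trans (hsc _ hq)
      g0 := hpe0
      g1 := by linarith
      g2 := by linarith
      g3 := by linarith
      g4 := by linarith
      g5 := by linarith
      g6 := by linarith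
      g7 := by linarith
      g8 := by linarith
      g9 := by linarith }⟩

end Pool.S6C
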